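import Pool.Agent.H43.DPC.Targets

/-!
# The Schwartz space is complete (CPL)
-/

open MeasureTheory SchwartzMap Filter Topology Uniformity
open scoped ENNReal ContDiff

namespace Pool.Agent.H70.DPC

open Pool.Agent.H43.DPC

noncomputable section

/-- sums of absolutely convergent series of Schwartz functions -/
lemma CPL_sum {d : ℕ} (w : ℕ → S d)
    (hw : ∀ k l : ℕ, Summable (fun j => SchwartzMap.seminorm ℝ k l (w j))) :
    ∃ G : S d, (∀ x, G x = ∑' j, w j x) ∧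
      ∀ k l : ℕ, SchwartzMap.seminorm ℝ k l G ≤ ∑' j, SchwartzMap.seminorm ℝ k l (w j) := by
  have hb : ∀ (k : ℕ) (i : ℕ) (x : V d), (k : ℕ∞) ≤ ⊤ →
      ‖iteratedFDeriv ℝ k (w i) x‖ ≤ SchwartzMap.seminorm ℝ 0 k (w i) :=
    fun k i x _ => norm_iteratedFDeriv_le_seminorm ℝ (w i) k x
  have hf : ∀ i, ContDiff ℝ ((⊤ : ℕ∞) : ℕ∞ω) (w i) := fun i => (w i).smooth'
  have hv : ∀ k : ℕ, (k : ℕ∞) ≤ ⊤ →
      Summable (fun i => SchwartzMap.seminorm ℝ 0 k (w i)) := fun k _ => hw 0 k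
  have hsm : ContDiff ℝ ∞ (fun x => ∑' j, w j x) :=
    contDiff_tsum (N := ⊤) (v := fun k i => SchwartzMap.seminorm ℝ 0 k (w i)) hf hv hb
  have hder : ∀ (l : ℕ) (x : V d), iteratedFDeriv ℝ l (fun x => ∑' j, w j x) x =
      ∑' j, iteratedFDeriv ℝ l (w j) x := fun l x =>
    iteratedFDeriv_tsum_apply (N := ⊤) (v := fun k i => SchwartzMap.seminorm ℝ 0 k (w i))
      hf hv hb (k := l) le_top x
  have hest : ∀ (k l : ℕ) (x : V d), ‖x‖ ^ k * ‖iteratedFDeriv ℝ l (fun x => ∑' j, w j x) x‖ ≤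
      ∑' j, SchwartzMap.seminorm ℝ k l (w j) := by
    intro k l x
    rw [hder]
    have hs : Summable (fun j => ‖iteratedFDeriv ℝ l (w j) x‖) :=
      Summable.of_nonneg_of_le (fun j => norm_nonneg _) (fun j => hb l j x le_top) (hw 0 l)
    calc ‖x‖ ^ k * ‖∑' j, iteratedFDeriv ℝ l (w j) x‖
        ≤ ‖x‖ ^ k * ∑' j, ‖iteratedFDeriv ℝ l (w j) x‖ :=
          mul_le_mul_of_nonneg_left (norm_tsum_le_tsum_norm hs) (pow_nonneg (norm_nonneg x) _)
      _ = ∑' j, ‖x‖ ^ k * ‖iteratedFDeriv ℝ l (w j) x‖ := (tsum_mul_left).symm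
      _ ≤ ∑' j, SchwartzMap.seminorm ℝ k l (w j) :=
          (hs.mul_left _).tsum_le_tsum (fun j => SchwartzMap.le_seminorm ℝ k l (w j) x) (hw k l)
  let G : S d := ⟨fun x => ∑' j, w j x, hsm, fun k l => ⟨_, hest k l⟩⟩
  refine ⟨G, fun x => rfl, fun k l => ?_⟩
  exact SchwartzMap.seminorm_le_bound ℝ k l G (tsum_nonneg fun j => apply_nonneg _ _)
    (hest k l)

/-- the seminorms of a difference are symmetric -/
lemma CPL_sub_rev {d : ℕ} (k l : ℕ) (f g : S d) :
    SchwartzMap.seminorm ℝ k l (f - g) = SchwartzMap.seminorm ℝ k l (g - f) :=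
  map_sub_rev _ _ _

theorem CPL : T_CPL := by
  intro d
  have : (𝓤 (S d)).IsCountablyGenerated := IsUniformAddGroup.uniformity_countably_generated
  refine UniformSpace.complete_of_cauchySeq_tendsto fun u hu => ?_
  -- a fast subsequence
  have hV : ∀ n : ℕ, {p : S d × S d | pm n (p.2 - p.1) < (1 / 2 : ℝ) ^ n} ∈ 𝓤 (S d) := by
    intro n
    have h0 : {x : S d | pm n x < (1 / 2 : ℝ) ^ n} ∈ 𝓝 (0 : S d) := by
      have h1 := (schwartz_withSeminorms ℝ (V d) ℝ).hasBasis_zero_ball.mem_of_mem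
        (i := (Finset.Iic (n, n), (1 / 2 : ℝ) ^ n)) (by positivity)
      refine Filter.mem_of_superset h1 fun x hx => ?_
      have h2 : ((Finset.Iic (n, n)).sup (schwartzSeminormFamily ℝ (V d) ℝ)) x <
          (1 / 2 : ℝ) ^ n := (Seminorm.mem_ball_zero _).1 hx
      exact h2
    rw [uniformity_eq_comap_nhds_zero (S d)]
    exact ⟨_, h0, fun p hp => hp⟩
  obtain ⟨φ, hφ, hφV⟩ := hu.subseq_mem hV
  have hstep : ∀ n : ℕ, pm n (u (φ (n + 1)) - u (φ n)) < (1 / 2 : ℝ) ^ n := by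
    intro n
    have h1 : pm n (u (φ n) - u (φ (n + 1))) < (1 / 2 : ℝ) ^ n := hφV n
    have h2 : pm n (u (φ (n + 1)) - u (φ n)) = pm n (u (φ n) - u (φ (n + 1))) :=
      map_sub_rev _ _ _
    rw [h2]; exact h1
  obtain ⟨v, hv⟩ : ∃ v : ℕ → S d, ∀ n, v n = u (φ (n + 1)) - u (φ n) := ⟨_, fun n => rfl⟩
  have hsum : ∀ k l : ℕ, Summable (fun j => SchwartzMap.seminorm ℝ k l (v j)) := by
    intro k l
    have h1 : Summable (fun j : ℕ => (1 / 2 : ℝ) ^ j) := summable_geometric_two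
    refine Summable.of_norm_bounded_eventually_nat h1 ?_
    filter_upwards [eventually_ge_atTop (max k l)] with j hj
    rw [Real.norm_of_nonneg (apply_nonneg _ _)]
    have h2 : (schwartzSeminormFamily ℝ (V d) ℝ) (k, l) (v j) ≤ pm j (v j) := by
      unfold pm
      refine Seminorm.le_finset_sup_apply (Finset.mem_Iic.2 ?_)
      exact ⟨(le_max_left k l).trans hj, (le_max_right k l).trans hj⟩
    have h3 : pm j (v j) < (1 / 2 : ℝ) ^ j := by rw [hv]; exact hstep j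
    exact h2.trans h3.le
  have hsumS : ∀ J k l : ℕ, Summable (fun j => SchwartzMap.seminorm ℝ k l (v (j + J))) :=
    fun J k l => (summable_nat_add_iff J).2 (hsum k l)
  choose G hG hGs using fun J => CPL_sum (fun j => v (j + J)) (hsumS J)
  refine ⟨u (φ 0) + G 0, tendsto_nhds_of_cauchySeq_of_subseq hu hφ.tendsto_atTop ?_⟩
  -- the tails
  have htail : ∀ J, u (φ 0) + G 0 - u (φ J) = G J := by
    intro J
    have hpt : ∀ x : V d, Summable (fun j => v j x) := by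
      intro x
      refine Summable.of_norm_bounded (hsum 0 0) fun j => ?_
      have := norm_iteratedFDeriv_le_seminorm ℝ (v j) 0 x
      rwa [norm_iteratedFDeriv_zero] at this
    ext x
    have h1 : (u (φ 0) + G 0 - u (φ J)) x = u (φ 0) x + G 0 x - u (φ J) x := rfl
    rw [h1, hG 0 x, hG J x]
    have h2 : ∑' j, v (j + 0) x = ∑' j, v j x := rfl
    have h3 : ∑ j ∈ Finset.range J, v j x + ∑' j, v (j + J) x = ∑' j, v j x :=
      (hpt x).sum_add_tsum_nat_add J
    have h4 : ∑ j ∈ Finset.range J, v j x = u (φ J) x - u (φ 0) x := by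
      have h5 : ∀ j, v j x = u (φ (j + 1)) x - u (φ j) x := fun j => by rw [hv]; rfl
      rw [Finset.sum_congr rfl fun j _ => h5 j]
      exact Finset.sum_range_sub (fun j => u (φ j) x) J
    rw [h2, ← h3, h4]
    ring
  rw [(schwartz_withSeminorms ℝ (V d) ℝ).tendsto_nhds]
  rintro ⟨k, l⟩ ε hε
  have hlim : Tendsto (fun J => ∑' j, SchwartzMap.seminorm ℝ k l (v (j + J))) atTop (𝓝 0) :=
    tendsto_sum_nat_add (fun j => SchwartzMap.seminorm ℝ k l (v j))
  filter_upwards [hlim.eventually_lt_const hε] with J hJ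
  have h1 : SchwartzMap.seminorm ℝ k l (u (φ J) - (u (φ 0) + G 0)) =
      SchwartzMap.seminorm ℝ k l (G J) := by
    rw [CPL_sub_rev, htail]
  have h2 : SchwartzMap.seminorm ℝ k l (u (φ J) - (u (φ 0) + G 0)) < ε := by
    rw [h1]; exact (hGs J k l).trans_lt hJ
  exact h2

end

end Pool.Agent.H70.DPC
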