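import Pool.Agent.H43.DPC.Targets

/-!
# Conditions 1 and 2 give condition 3 (EXT)
-/

open MeasureTheory SchwartzMap Filter Topology
open scoped ENNReal ContDiff

namespace Pool.Agent.H70.DPC

open Pool.Agent.H43.DPC

noncomputable section

theorem EXT (hMCT : T_MCT) (hDOM : T_DOM) (hHOM : T_HOM) (hGRO : T_GRO) (hCUT : T_CUT) :
    T_EXT := by
  intro d μ _ hMAO hTI a hSS ha n hn s h1 h2
  have hint : ∀ f : Fin n → S d, IntegrableOn (fun x => s x * ∏ i, f i (x i)) (Diag d n)ᶜ :=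
    fun f => hGRO d n s h1.smooth.continuousOn h2 (-(n * a))
      (fun t x ht hx => hHOM d μ a hSS n s h1 t ht x hx) f
  intro f
  refine ⟨hint f, ?_⟩
  obtain ⟨θ, hθc, hθb, hθp, hθt⟩ := hCUT d
  have e1 : Tendsto (fun m => moment μ (fun i => θ m (f i))) atTop (𝓝 (moment μ f)) :=
    hMCT d μ hMAO n (fun m i => θ m (f i)) f fun i => hθt (f i)
  have e2 : ∀ m, moment μ (fun i => θ m (f i)) =
      ∫ x in (Diag d n)ᶜ, s x * ∏ i, θ m (f i) (x i) := fun m =>
    hDOM d μ hMAO hTI a hSS ha n hn s h1 h2 (fun i => θ m (f i)) fun i => hθc m (f i)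
  have e3 : Tendsto (fun m => ∫ x in (Diag d n)ᶜ, s x * ∏ i, θ m (f i) (x i)) atTop
      (𝓝 (∫ x in (Diag d n)ᶜ, s x * ∏ i, f i (x i))) := by
    refine tendsto_integral_of_dominated_convergence (fun x => ‖s x * ∏ i, f i (x i)‖)
      (fun m => (hint fun i => θ m (f i)).aestronglyMeasurable) (hint f).norm
      (fun m => ae_of_all _ fun x => ?_) (ae_of_all _ fun x => ?_)
    · rw [norm_mul, norm_mul]
      refine mul_le_mul_of_nonneg_left ?_ (norm_nonneg _)
      rw [Real.norm_eq_abs, Real.norm_eq_abs, Finset.abs_prod, Finset.abs_prod]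
      exact Finset.prod_le_prod (fun i _ => abs_nonneg _) fun i _ => hθb m (f i) (x i)
    · exact (tendsto_finsetProd _ fun i _ => hθp (f i) (x i)).const_mul (s x)
  refine tendsto_nhds_unique e1 ?_
  have e4 : (fun m => moment μ (fun i => θ m (f i))) =
      fun m => ∫ x in (Diag d n)ᶜ, s x * ∏ i, θ m (f i) (x i) := funext e2
  rw [e4]
  exact e3

end

end Pool.Agent.H70.DPC
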