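import Pool.Agent.H43.DPC.Targets

/-!
# Uniform seminorm bound for the rescaled pieces (SEM)
-/

open MeasureTheory SchwartzMap Filter Topology
open scoped ENNReal ContDiff

namespace Pool.Agent.H70.DPC

open Pool.Agent.H43.DPC

noncomputable section

/-- derivatives of the rescaled translates -/
lemma SEM_iter {d : ℕ} (f : S d) (t : ℝ) (v : V d) (i : ℕ) (x : V d) :
    iteratedFDeriv ℝ i (fun x => f (t • x + t • v)) x =
      t ^ i • iteratedFDeriv ℝ i f (t • x + t • v) := by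
  have hs : ContDiff ℝ (i : ℕ∞ω) (fun z : V d => f (z + t • v)) :=
    (f.smooth (i : ℕ∞)).comp (contDiff_id.add contDiff_const)
  have h := iteratedFDeriv_comp_const_smul (𝕜 := ℝ) (i := i) t hs
  have h1 := congrFun h x
  rw [h1, iteratedFDeriv_comp_add_right]

theorem SEM : T_SEM := by
  intro d f χ hχ hc m
  let χS : S d := hc.toSchwartzMap hχ
  have hχS : ∀ x, χS x = χ x := fun x => rfl
  refine ⟨∑ q ∈ Finset.Iic (m, m), ∑ i ∈ Finset.range (q.2 + 1), (q.2.choose i : ℝ) *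
    SchwartzMap.seminorm ℝ q.1 i χS * SchwartzMap.seminorm ℝ 0 (q.2 - i) f, ?_⟩
  intro t v ht0 ht1
  have hnn : ∀ q : ℕ × ℕ, 0 ≤ ∑ i ∈ Finset.range (q.2 + 1), (q.2.choose i : ℝ) *
      SchwartzMap.seminorm ℝ q.1 i χS * SchwartzMap.seminorm ℝ 0 (q.2 - i) f := fun q =>
    Finset.sum_nonneg fun i _ => mul_nonneg (mul_nonneg (Nat.cast_nonneg _) (apply_nonneg _ _))
      (apply_nonneg _ _)
  have htg : Function.HasTemperateGrowth χ := hc.hasTemperateGrowth hχ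
  have hfun : ∀ x : V d, (smulLeftCLM ℝ χ (dil t⁻¹ (trans (-((t : ℝ) • v)) f))) x =
      χ x • f ((t : ℝ) • x + (t : ℝ) • v) := by
    intro x
    rw [smulLeftCLM_apply_apply htg]
    have e : (dil t⁻¹ (trans (-((t : ℝ) • v)) f)) x =
        f ((((t⁻¹)⁻¹ : ℝˣ) : ℝ) • x - -((t : ℝ) • v)) := rfl
    rw [e, inv_inv, sub_neg_eq_add]
  have hfun' : (⇑(smulLeftCLM ℝ χ (dil t⁻¹ (trans (-((t : ℝ) • v)) f))) : V d → ℝ) =
      fun x => χ x • (fun x => f ((t : ℝ) • x + (t : ℝ) • v)) x := funext hfun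
  refine Seminorm.finset_sup_apply_le (Finset.sum_nonneg fun q _ => hnn q) fun q hq => ?_
  refine le_trans ?_ (Finset.single_le_sum (fun q _ => hnn q) hq)
  refine SchwartzMap.seminorm_le_bound ℝ q.1 q.2 _ (hnn q) fun x => ?_
  rw [hfun']
  have hL : ContDiff ℝ ∞ (fun x : V d => (t : ℝ) • x + (t : ℝ) • v) :=
    (contDiff_id.const_smul (t : ℝ)).add contDiff_const
  have hG : ContDiff ℝ ∞ (fun x : V d => f ((t : ℝ) • x + (t : ℝ) • v)) :=
    f.smooth'.comp hL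
  have h1 := norm_iteratedFDeriv_smul_le (𝕜 := ℝ) hχ hG x (n := q.2)
    (WithTop.coe_le_coe.2 le_top)
  refine le_trans (mul_le_mul_of_nonneg_left h1 (pow_nonneg (norm_nonneg x) _)) ?_
  rw [Finset.mul_sum]
  refine Finset.sum_le_sum fun i _ => ?_
  have h2 : ‖iteratedFDeriv ℝ (q.2 - i) (fun x : V d => f ((t : ℝ) • x + (t : ℝ) • v)) x‖ ≤
      SchwartzMap.seminorm ℝ 0 (q.2 - i) f := by
    rw [SEM_iter, norm_smul, norm_pow, Real.norm_of_nonneg ht0.le]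
    have h3 := norm_iteratedFDeriv_le_seminorm ℝ f (q.2 - i) ((t : ℝ) • x + (t : ℝ) • v)
    calc (t : ℝ) ^ (q.2 - i) * ‖iteratedFDeriv ℝ (q.2 - i) f ((t : ℝ) • x + (t : ℝ) • v)‖
        ≤ 1 * ‖iteratedFDeriv ℝ (q.2 - i) f ((t : ℝ) • x + (t : ℝ) • v)‖ :=
          mul_le_mul_of_nonneg_right (pow_le_one₀ ht0.le ht1) (norm_nonneg _)
      _ ≤ _ := by rw [one_mul]; exact h3
  have h4 : ‖x‖ ^ q.1 * ‖iteratedFDeriv ℝ i χ x‖ ≤ SchwartzMap.seminorm ℝ q.1 i χS :=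
    SchwartzMap.le_seminorm ℝ q.1 i χS x
  calc ‖x‖ ^ q.1 * ((q.2.choose i : ℝ) * ‖iteratedFDeriv ℝ i χ x‖ *
        ‖iteratedFDeriv ℝ (q.2 - i) (fun x : V d => f ((t : ℝ) • x + (t : ℝ) • v)) x‖)
      = (q.2.choose i : ℝ) * (‖x‖ ^ q.1 * ‖iteratedFDeriv ℝ i χ x‖) *
        ‖iteratedFDeriv ℝ (q.2 - i) (fun x : V d => f ((t : ℝ) • x + (t : ℝ) • v)) x‖ := by
        ring
    _ ≤ (q.2.choose i : ℝ) * SchwartzMap.seminorm ℝ q.1 i χS *
        SchwartzMap.seminorm ℝ 0 (q.2 - i) f := by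
        refine mul_le_mul (mul_le_mul_of_nonneg_left h4 (Nat.cast_nonneg _)) h2
          (norm_nonneg _) (mul_nonneg (Nat.cast_nonneg _) (apply_nonneg _ _))

end

end Pool.Agent.H70.DPC
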