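import Pool.Agent.H43.DPC.Targets

/-!
# The weights (WSP)
-/

open MeasureTheory SchwartzMap Filter Topology
open scoped ENNReal ContDiff

namespace Pool.Agent.H70.DPC

open Pool.Agent.H43.DPC

noncomputable section

lemma WSP_closed (d n : ℕ) : IsClosed (Diag d n) := by
  have h : Diag d n = ⋃ (p : Fin n × Fin n), {x : Fin n → V d | p.1 ≠ p.2 ∧ x p.1 = x p.2} := by
    ext x
    simp only [Diag, Set.mem_setOf_eq, Set.mem_iUnion, Prod.exists]
  rw [h]
  refine isClosed_iUnion_of_finite fun p => ?_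
  by_cases hp : p.1 = p.2
  · have e : {x : Fin n → V d | p.1 ≠ p.2 ∧ x p.1 = x p.2} = ∅ := by
      ext x
      simp [hp]
    rw [e]
    exact isClosed_empty
  · have e : {x : Fin n → V d | p.1 ≠ p.2 ∧ x p.1 = x p.2} = {x | x p.1 = x p.2} := by
      ext x
      simp [hp]
    rw [e]
    exact isClosed_eq (continuous_apply _) (continuous_apply _)

/-- the sum over all tuples is a product -/
lemma WSP_full (d n K : ℕ) (t : ℝ) (x : Fin n → V d) :
    ∑ k ∈ Fintype.piFinset (fun _ : Fin n => box d K), ∏ i, cell t (k i) (x i) =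
      ∏ i, ∑ k ∈ box d K, cell t k (x i) :=
  (Finset.prod_univ_sum (fun _ : Fin n => box d K) (fun i k => cell t k (x i))).symm

lemma WSP_prod_nonneg (hLAT : T_LAT) (d n : ℕ) (t : ℝ) (k : Fin n → Fin d → ℤ)
    (x : Fin n → V d) : 0 ≤ ∏ i, cell t (k i) (x i) :=
  Finset.prod_nonneg fun i _ => hLAT.nonneg d t (k i) (x i)

theorem WSP (hLAT : T_LAT) : T_WSP := by
  refine ⟨WSP_closed, ?_, ?_, ?_, ?_⟩
  · intro d n R m x
    exact Finset.sum_nonneg fun k _ => WSP_prod_nonneg hLAT d n _ k x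
  · intro d n R m x
    unfold wsep
    calc ∑ k ∈ sepBox d n (R * (m + 1)), ∏ i, cell ((m + 1 : ℝ)⁻¹) (k i) (x i)
        ≤ ∑ k ∈ Fintype.piFinset (fun _ : Fin n => box d (R * (m + 1))),
            ∏ i, cell ((m + 1 : ℝ)⁻¹) (k i) (x i) :=
          Finset.sum_le_sum_of_subset_of_nonneg (Finset.filter_subset _ _)
            fun k _ _ => WSP_prod_nonneg hLAT d n _ k x
      _ = ∏ i, ∑ k ∈ box d (R * (m + 1)), cell ((m + 1 : ℝ)⁻¹) k (x i) := WSP_full _ _ _ _ _
      _ ≤ 1 := Finset.prod_le_one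
          (fun i _ => Finset.sum_nonneg fun k _ => hLAT.nonneg d _ k (x i))
          fun i _ => hLAT.sum_le_one d _ _ (x i)
  · intro d n R m
    unfold wsep
    refine continuous_finset_sum _ fun k _ => continuous_finset_prod _ fun i _ => ?_
    exact (hLAT.contDiff d _ (k i)).continuous.comp (continuous_apply i)
  · intro d n R x hx hR
    have h1 : ∀ᶠ m : ℕ in atTop, ∀ i j : Fin n, i ≠ j →
        ∃ l : Fin d, 4 * (m + 1 : ℝ)⁻¹ < |x i l - x j l| := by
      rw [eventually_all]
      intro i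
      rw [eventually_all]
      intro j
      by_cases hij : i = j
      · exact Eventually.of_forall fun m h => absurd hij h
      · have hne : x i ≠ x j := fun h => hx ⟨i, j, hij, h⟩
        obtain ⟨l, hl⟩ : ∃ l : Fin d, x i l ≠ x j l := by
          by_contra hcon
          push Not at hcon
          exact hne (PiLp.ext hcon)
        have hpos : 0 < |x i l - x j l| := abs_pos.2 (sub_ne_zero.2 hl)
        have hlim : Tendsto (fun m : ℕ => 4 * (m + 1 : ℝ)⁻¹) atTop (𝓝 0) := by
          have h := (tendsto_one_div_add_atTop_nhds_zero_nat (𝕜 := ℝ)).const_mul (4 : ℝ)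
          simpa [one_div] using h
        filter_upwards [hlim.eventually_lt_const hpos] with m hm _
        exact ⟨l, hm⟩
    filter_upwards [h1] with m hm
    have ht : 0 < (m + 1 : ℝ)⁻¹ := by positivity
    unfold wsep
    have h2 : ∑ k ∈ sepBox d n (R * (m + 1)), ∏ i, cell ((m + 1 : ℝ)⁻¹) (k i) (x i) =
        ∑ k ∈ Fintype.piFinset (fun _ : Fin n => box d (R * (m + 1))),
            ∏ i, cell ((m + 1 : ℝ)⁻¹) (k i) (x i) := by
      refine Finset.sum_subset (Finset.filter_subset _ _) fun k hk hks => ?_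
      by_contra hne
      apply hks
      refine Finset.mem_filter.2 ⟨hk, fun i j hij hnear => ?_⟩
      have hc : ∀ i, cell ((m + 1 : ℝ)⁻¹) (k i) (x i) ≠ 0 := fun i =>
        Finset.prod_ne_zero_iff.1 hne i (Finset.mem_univ i)
      have hts : ∀ i l, |x i l - (m + 1 : ℝ)⁻¹ * (k i l : ℝ)| ≤ (m + 1 : ℝ)⁻¹ := fun i l =>
        hLAT.tsupport d _ ht (k i) (x i) (subset_tsupport _ (hc i)) l
      obtain ⟨l, hl⟩ := hm i j hij
      have h3 : |(k i l : ℝ) - (k j l : ℝ)| ≤ 2 := by
        have := hnear l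
        exact_mod_cast this
      have h4 := abs_le.1 (hts i l)
      have h5 := abs_le.1 (hts j l)
      have h6 := abs_le.1 h3
      have h7 : |x i l - x j l| ≤ 4 * (m + 1 : ℝ)⁻¹ := by
        rw [abs_le]
        constructor
        · nlinarith [mul_le_mul_of_nonneg_left h6.1 ht.le]
        · nlinarith [mul_le_mul_of_nonneg_left h6.2 ht.le]
      linarith
    rw [h2, WSP_full]
    exact Finset.prod_eq_one fun i _ => hLAT.sum_eq_one d m R (x i) (hR i)

end

end Pool.Agent.H70.DPC
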